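import Pool.Agent.Helper86.SG.Defs

/-!
# The fibres over the supports which meet `T`
-/

open Finset

namespace Pool.Agent.Helper31.SG.CENC

open _root_.SG
open SJ (supp IsV dot fib)

/-- The core: a member `x` and a support `B ∪ W` over which the negative of `x` on `B` is allowed. -/
theorem core {n k d : ℕ} {F : Finset (Fin n → ℤ)} (hind : IndJ n k d F)
    {B W S : Finset (Fin n)} (hB : #B = 2 * d + 2) (hW : #W + (2 * d + 2) = k)
    (hBW : Disjoint B W) (hWS : Disjoint W S) (hBS : B ⊆ S) {f : Fin n} (hfB : f ∈ B)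
    {c : Fin n → ℤ} (hstr : Str k d F (B ∪ W) f c) {x : Fin n → ℤ} (hx : x ∈ F)
    (hxS : supp x = S)
    (hle : #((B.erase f).filter (fun i => - x i ≠ c i)) ≤ d) : False := by
  classical
  obtain ⟨-, hc, hmem⟩ := hstr
  set w : Fin n → ℤ := fun i => if i ∈ B then - x i else if i ∈ W then c i else 0 with hw
  have hxv := hind.1 x hx
  have hxne : ∀ i ∈ S, x i ≠ 0 := by
    intro i hi
    rw [← hxS] at hi
    simpa [supp] using hi
  have hx0 : ∀ i, i ∉ S → x i = 0 := by
    intro i hi
    rw [← hxS] at hi
    simpa [supp] using hi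
  have hwB : ∀ i ∈ B, w i = - x i := fun i hi => by simp [hw, hi]
  have hwW : ∀ i ∈ W, w i = c i := fun i hi => by
    have : i ∉ B := fun h => (Finset.disjoint_left.mp hBW h) hi
    simp [hw, this, hi]
  have hw0 : ∀ i, i ∉ B → i ∉ W → w i = 0 := fun i h1 h2 => by simp [hw, h1, h2]
  have hsupp : supp w = B ∪ W := by
    ext i
    simp only [supp, mem_filter, mem_univ, true_and, mem_union]
    constructor
    · intro h
      by_contra hcon
      push Not at hcon
      exact h (hw0 i hcon.1 hcon.2)
    · rintro (h | h)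
      · rw [hwB i h]
        exact neg_ne_zero.mpr (hxne i (hBS h))
      · rw [hwW i h]
        rcases hc i with h' | h' <;> rw [h'] <;> norm_num
  have hcard : #(B ∪ W) = k := by
    rw [card_union_of_disjoint hBW]
    omega
  have hwv : IsV n k w := by
    refine ⟨?_, by rw [hsupp]; exact hcard⟩
    intro i
    by_cases h1 : i ∈ B
    · rw [hwB i h1]
      rcases hxv.1 i with h | h | h <;> rw [h] <;> norm_num
    · by_cases h2 : i ∈ W
      · rw [hwW i h2]
        rcases hc i with h | h
        · right; right; exact h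
        · left; exact h
      · right; left; exact hw0 i h1 h2
  have hwF : w ∈ F := by
    rw [hmem w hwv hsupp]
    refine le_trans (card_le_card ?_) hle
    intro i hi
    rw [mem_filter, mem_erase, mem_union] at hi
    obtain ⟨⟨hif, hiBW⟩, hne⟩ := hi
    rcases hiBW with h | h
    · rw [mem_filter, mem_erase]
      refine ⟨⟨hif, h⟩, ?_⟩
      rw [← hwB i h]
      exact hne
    · exact absurd (hwW i h) hne
  have hxw : x ≠ w := by
    intro h
    have h1 : w f = - x f := hwB f hfB
    rw [← h] at h1
    have h2 := hxne f (hBS hfB)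
    omega
  apply hind.2 x hx w hwF hxw
  have h1 : dot x w = ∑ i ∈ B, x i * w i := by
    unfold SJ.dot
    symm
    apply sum_subset (subset_univ _)
    intro i _ hi
    by_cases h2 : i ∈ W
    · rw [hx0 i (Finset.disjoint_left.mp hWS h2), zero_mul]
    · rw [hw0 i hi h2, mul_zero]
  rw [h1]
  have h2 : ∀ i ∈ B, x i * w i = -1 := by
    intro i hi
    rw [hwB i hi]
    rcases hxv.1 i with h | h | h
    · rw [h]; norm_num
    · exact absurd h (hxne i (hBS hi))
    · rw [h]; norm_num
  rw [sum_congr rfl h2, sum_const, hB]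
  simp

theorem cenc (hFIB : FIBStm) : CENCStm := by
  classical
  intro n k d F hk hind T V hTV hV hstr S hS hST
  refine (hFIB n k d F hk hind.1 S hS ?_).1
  intro u hu v hv hus hvs
  by_contra hcon
  push Not at hcon
  obtain ⟨A, hAsub, hA⟩ := exists_subset_card_eq (show 2 * d + 2 ≤ _ by omega : 2 * d + 2 ≤
    #(S.filter (fun i => u i ≠ v i)))
  have hAS : A ⊆ S := hAsub.trans (filter_subset _ _)
  have hopp : ∀ i ∈ A, v i = - u i := by
    intro i hi
    have h1 := (mem_filter.mp (hAsub hi)).2
    have hiS := hAS hi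
    have h2 : u i ≠ 0 := by rw [← hus] at hiS; simpa [supp] using hiS
    have h3 : v i ≠ 0 := by rw [← hvs] at hiS; simpa [supp] using hiS
    rcases (hind.1 u hu).1 i with h | h | h <;> rcases (hind.1 v hv).1 i with h' | h' | h' <;>
      simp_all
  -- the set `B`
  obtain ⟨B, hBS, hB, hBT, hBe⟩ : ∃ B : Finset (Fin n), B ⊆ S ∧ #B = 2 * d + 2 ∧
      (∃ t ∈ B, t ∈ T) ∧ ∀ f ∈ B, f ∈ T → B.erase f ⊆ A := by
    by_cases hAT : ∃ t ∈ A, t ∈ T
    · exact ⟨A, hAS, hA, hAT, fun f _ _ => erase_subset _ _⟩
    · push Not at hAT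
      obtain ⟨t, htS, htT⟩ := Finset.not_disjoint_iff.mp hST
      obtain ⟨a, ha⟩ : A.Nonempty := by
        rw [← card_pos, hA]; omega
      have htA : t ∉ A := fun h => hAT t h htT
      refine ⟨insert t (A.erase a), ?_, ?_, ⟨t, mem_insert_self _ _, htT⟩, ?_⟩
      · intro i hi
        rcases mem_insert.mp hi with h | h
        · rw [h]; exact htS
        · exact hAS (mem_of_mem_erase h)
      · rw [card_insert_of_notMem (fun h => htA (mem_of_mem_erase h)), card_erase_of_mem ha, hA]
        omega
      · intro f hf hfT i hi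
        have hft : f = t := by
          rcases mem_insert.mp hf with h | h
          · exact h
          · exact absurd hfT (hAT f (mem_of_mem_erase h))
        rw [hft, mem_erase, mem_insert] at hi
        rcases hi.2 with h | h
        · exact absurd h hi.1
        · exact mem_of_mem_erase h
  -- the set `W`
  obtain ⟨W, hWsub, hW⟩ : ∃ W ⊆ V \ S, #W = k - (2 * d + 2) := by
    apply exists_subset_card_eq
    have := le_card_sdiff S V
    omega
  have hWV : W ⊆ V := fun i hi => (mem_sdiff.mp (hWsub hi)).1
  have hWS : Disjoint W S := Finset.disjoint_left.mpr fun i hi => (mem_sdiff.mp (hWsub hi)).2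
  have hBW : Disjoint B W := (hWS.symm.mono_left hBS)
  have hcard : #(B ∪ W) = k := by
    rw [card_union_of_disjoint hBW]
    omega
  obtain ⟨t, htB, htT⟩ := hBT
  obtain ⟨y, hy⟩ : W.Nonempty := by
    rw [← card_pos, hW]; omega
  obtain ⟨f, hfT, c, hfc⟩ := hstr (B ∪ W) hcard
    (Finset.not_disjoint_iff.mpr ⟨y, mem_union_right _ hy, hWV hy⟩)
    (Finset.not_disjoint_iff.mpr ⟨t, mem_union_left _ htB, htT⟩)
  have hfB : f ∈ B := by
    rcases mem_union.mp hfc.1 with h | h
    · exact h
    · exact absurd (hWV h) (Finset.disjoint_left.mp hTV hfT)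
  have hsub := hBe f hfB hfT
  have hc := hfc.2.1
  have hsum : #((B.erase f).filter (fun i => - u i ≠ c i)) +
      #((B.erase f).filter (fun i => - v i ≠ c i)) ≤ 2 * d + 1 := by
    rw [← card_union_of_disjoint]
    · refine (card_le_card (?_ : _ ⊆ B.erase f)).trans ?_
      · intro i hi
        rcases mem_union.mp hi with h | h <;> exact (mem_filter.mp h).1
      · rw [card_erase_of_mem hfB, hB]
        omega
    · rw [Finset.disjoint_left]
      intro i hi hi'
      have h1 := (mem_filter.mp hi).2
      have h2 := (mem_filter.mp hi').2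
      have hiA := hsub (mem_filter.mp hi).1
      have hiS := hAS hiA
      have h3 : u i ≠ 0 := by rw [← hus] at hiS; simpa [supp] using hiS
      rw [hopp i hiA] at h2
      rcases (hind.1 u hu).1 i with h | h | h <;> rcases hc i with h' | h' <;>
        simp_all
  rcases (by omega : #((B.erase f).filter (fun i => - u i ≠ c i)) ≤ d ∨
      #((B.erase f).filter (fun i => - v i ≠ c i)) ≤ d) with h | h
  · exact core hind hB (by omega) hBW hWS hBS hfB hfc hu hus h
  · exact core hind hB (by omega) hBW hWS hBS hfB hfc hv hvs h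

end Pool.Agent.Helper31.SG.CENC
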